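import Pool.Agent.W_4481e3_q87.GoR
import Pool.Agent.W_4481e3_tab.T8

/-!
Tree s30o8, data 7.
-/

namespace Pool.Agent.W_4481e3_rt.s30o8

open Pool.Agent.W_4481e3_q25.EvR

theorem k141 : ckO Pool.Agent.W_4481e3_tab.T8.tab 1144800 2220640 16777216 4194304 5931008 8388608 25 3670016 524288 524288 524288 511768002 526008149 3794875 3690503 268413150 268439243 16777216 16777216 8472495 8472495 0x102000c02000c02000c03000c21203000c03000c04000c03000c04000c03000c04000c2121203000c04000c04000c05000c04000c05000c06000c121204000c05000c105000c05000c106000c206000c121204000c03000c04000c04000c04000c04000c1212104000c06000c206000c104000c05000c06000c1204000c06000c21506000c06000c07000c21206000c06000c206000c06000c06000c2106000c06000c207000c06000c507000c06000c507000c08000c07000c521212106000c06000c107000c07000c07000c21206000c07000c207000c07000c08000c2107000c08000c209070c08000c08000c209000c09070c2121210300ccaa43aaa34aa3aaa43434aa4aaa343aa3848343206000c07000c207000c07000c08000c2107000c08000c209070c09070c09070c1212107000c07000c07000c2107000c07000c08000c212aa3aaa434aa4aa43aa404001c03001c434303001c03001c3407000c08000c08000c2108000c08000c08000c08000c08000c08000c609000c5212128a834830400ac4803001c4303001c418a8348304001c04001c3480400ac4303001c42312406000c07000c207000c07000c08000c2107000c08000c209070c08000c08000c209000c09070c21212106000c07000c2803001c404006c303001c403001c02001c431407000c07000c07000c2107000c07000c08000c212aaa34aaa3438a84aa43806006c3438a84aa43806006c04001c434324aaa34aa4307007c0704fc20400ac0601cc240604ec02005c4343803001c40400ac03001c4303001c403001c02001c4341231828367a4a6721212121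 = true := by decide +kernel

theorem k145 : ckO Pool.Agent.W_4481e3_tab.T8.tab 1144800 2220640 16777216 4194304 5931008 8388608 5 3670016 524288 524288 524288 515354132 515354132 7172260 7172260 268435456 268435456 16777216 16777216 8472495 8472495 0x102000c02000c202000c02000c03000c202000c03000c2121 = true := by decide +kernel

theorem k148 : ckO Pool.Agent.W_4481e3_tab.T8.tab 1144800 2220640 16777216 4194304 5931008 8388608 5 3670016 524288 524288 524288 522526392 493837352 14344520 14344520 268435456 268435456 16777216 16777216 8472495 8472495 0x100000c00000c01000c201029c1201000c01007c01003c121 = true := by decide +kernel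

theorem k150 : ckO Pool.Agent.W_4481e3_tab.T8.tab 1144800 2220640 16777216 4194304 5931008 8388608 10 3670016 524288 524288 524288 493837352 508181872 14344520 28689040 268435456 268435456 16777216 16777216 8472495 8472495 0x100000c00000c00000c00000c00000c02000c12100000c00000c200000c00000c202000c102000c02000c202000c02000c02000c2102000c04000c04000c212121212 = true := by decide +kernel

end Pool.Agent.W_4481e3_rt.s30o8
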